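import Pool.Agent.Lib.MP_7f190d_al.Interfaces
import Pool.Agent.Lib.MP_7f190d_al.Basic

/-!
# MP_7f190d_al, module CO: the coned off graph

`Edg MV` : the unit distances of `MV` are the edges. All the properties of `COStatement` are proved
for every `MV` with `Edg MV`, one lemma for each (namespace `CO`).
-/

set_option autoImplicit false

namespace Pool.Agent.Lib.MP_7f190d_al

namespace CO

/-! ### Graph metrics -/

/-- The metric of a connected graph. -/
theorem exists_gmet {V : Type} (G : SimpleGraph V) (hc : G.Preconnected) :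
    ∃ M : GMet V, ∀ u v, M.d u v ≤ 1 ↔ (u = v ∨ G.Adj u v) := by
  classical
  have key : ∀ x y k, k ≤ G.dist x y → ∃ z, G.dist x z = k ∧ k + G.dist z y = G.dist x y := by
    intro x y k hk
    have hc' : G.Connected := { preconnected := hc, nonempty := ⟨x⟩ }
    obtain ⟨p, hp⟩ := (hc x y).exists_walk_length_eq_dist
    refine ⟨p.getVert k, ?_⟩
    have h1 : G.dist x (p.getVert k) ≤ k := by
      have := SimpleGraph.dist_le (p.take k)
      rw [SimpleGraph.Walk.take_length] at this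
      omega
    have h2 : G.dist (p.getVert k) y ≤ G.dist x y - k := by
      have := SimpleGraph.dist_le (p.drop k)
      rw [SimpleGraph.Walk.drop_length] at this
      omega
    have h3 := hc'.dist_triangle (u := x) (v := p.getVert k) (w := y)
    omega
  refine ⟨⟨G.dist, fun x => SimpleGraph.dist_self, ?_, fun x y => SimpleGraph.dist_comm, ?_,
    key⟩, ?_⟩
  · intro x y h
    exact (hc x y).dist_eq_zero_iff.mp h
  · intro x y z
    have hc' : G.Connected := { preconnected := hc, nonempty := ⟨x⟩ }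
    exact hc'.dist_triangle
  · intro u v
    show G.dist u v ≤ 1 ↔ _
    constructor
    · intro h
      rcases Nat.le_one_iff_eq_zero_or_eq_one.mp h with h | h
      · exact Or.inl ((hc u v).dist_eq_zero_iff.mp h)
      · exact Or.inr (SimpleGraph.dist_eq_one_iff_adj.mp h)
    · rintro (h | h)
      · subst h
        rw [SimpleGraph.dist_self]; omega
      · exact (SimpleGraph.dist_eq_one_iff_adj.mpr h).le

/-- functions which change by at most one along edges -/
lemma lip {V : Type} (M : GMet V) (f : V → ℤ) (hf : ∀ u v, M.d u v ≤ 1 → f u ≤ f v + 1) :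
    ∀ u v, f u ≤ f v + M.d u v := by
  intro u v
  obtain ⟨n, hn⟩ : ∃ n, n = M.d u v := ⟨_, rfl⟩
  induction n generalizing u with
  | zero =>
    rw [M.eq0 u v hn.symm]
    have := M.self v
    omega
  | succ n ih =>
    obtain ⟨z, h1, h2⟩ := M.geod u v 1 (by omega)
    have := ih z (by omega)
    have := hf u z (by omega)
    omega

variable {X : Type} {C : ConeDat X}

/-! ### The points `pt` -/

lemma pt_zero (j : C.J) (y : X) (hy : y ∈ C.Y j) : (CV.pt j y hy 0 : CV C) = CV.base y := by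
  unfold CV.pt; rw [dif_pos rfl]

lemma pt_cone (j : C.J) (y : X) (hy : y ∈ C.Y j) (m : ℕ) (h1 : 1 ≤ m) (h2 : m ≤ C.ρ) :
    (CV.pt j y hy m : CV C) = CV.cone j y hy m ⟨h1, h2⟩ := by
  unfold CV.pt; rw [dif_neg (by omega), dif_pos h2]

lemma pt_apex (j : C.J) (y : X) (hy : y ∈ C.Y j) (m : ℕ) (h : C.ρ < m) :
    (CV.pt j y hy m : CV C) = CV.apex j := by
  unfold CV.pt; rw [dif_neg (by omega), dif_neg (by omega)]

lemma ht_pt (j : C.J) (y : X) (hy : y ∈ C.Y j) (m : ℕ) :
    CV.ht (CV.pt j y hy m : CV C) = min m (C.ρ + 1) := by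
  rcases Nat.eq_zero_or_pos m with h | h
  · subst h; rw [pt_zero]; simp [CV.ht]
  · rcases le_or_gt m C.ρ with h' | h'
    · rw [pt_cone j y hy m h h']; simp only [CV.ht]; omega
    · rw [pt_apex j y hy m h']; simp only [CV.ht]; omega

lemma htj_pt (j : C.J) (y : X) (hy : y ∈ C.Y j) (m : ℕ) :
    CV.htj j (CV.pt j y hy m : CV C) = min m (C.ρ + 1) := by
  rcases Nat.eq_zero_or_pos m with h | h
  · subst h; rw [pt_zero]; simp [CV.htj]
  · rcases le_or_gt m C.ρ with h' | h'
    · rw [pt_cone j y hy m h h']; simp only [CV.htj, if_true]; omega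
    · rw [pt_apex j y hy m h']; simp only [CV.htj, if_true]; omega

lemma htj_pt_ne {i j : C.J} (hij : i ≠ j) (y : X) (hy : y ∈ C.Y i) (m : ℕ) :
    CV.htj j (CV.pt i y hy m : CV C) = 0 := by
  rcases Nat.eq_zero_or_pos m with h | h
  · subst h; rw [pt_zero]; simp [CV.htj]
  · rcases le_or_gt m C.ρ with h' | h'
    · rw [pt_cone i y hy m h h']; simp [CV.htj, hij]
    · rw [pt_apex i y hy m h']; simp [CV.htj, hij]

lemma ctr_pt (j : C.J) (y : X) (hy : y ∈ C.Y j) (m : ℕ) (h : m ≤ C.ρ) :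
    CV.ctr (CV.pt j y hy m : CV C) = y := by
  rcases Nat.eq_zero_or_pos m with h' | h'
  · subst h'; rw [pt_zero]; rfl
  · rw [pt_cone j y hy m h' h]; rfl

lemma pt_ne_base (j : C.J) (y : X) (hy : y ∈ C.Y j) (m : ℕ) (h : 1 ≤ m) (x : X) :
    (CV.pt j y hy m : CV C) ≠ CV.base x := by
  rcases le_or_gt m C.ρ with h' | h'
  · rw [pt_cone j y hy m h h']; simp
  · rw [pt_apex j y hy m h']; simp

lemma pt_eq_apex {i j : C.J} {y : X} {hy : y ∈ C.Y i} {m : ℕ}
    (h : (CV.pt i y hy m : CV C) = CV.apex j) : C.ρ < m ∧ i = j := by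
  rcases Nat.eq_zero_or_pos m with h' | h'
  · subst h'; rw [pt_zero] at h; cases h
  · rcases le_or_gt m C.ρ with h'' | h''
    · rw [pt_cone i y hy m h' h''] at h; cases h
    · rw [pt_apex i y hy m h''] at h
      refine ⟨h'', ?_⟩
      injection h

/-- points of positive height in the cone `j` -/
lemma exists_pt_of_htj_pos {j : C.J} {u : CV C} (h : 0 < CV.htj j u) :
    ∃ y hy m, 1 ≤ m ∧ m ≤ C.ρ + 1 ∧ u = CV.pt j y hy m ∧ CV.htj j u = m := by
  classical
  cases u with
  | base x => simp [CV.htj] at h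
  | cone i y hy k hk =>
    by_cases hij : i = j
    · subst hij
      exact ⟨y, hy, k, hk.1, by omega, (pt_cone i y hy k hk.1 hk.2).symm, by simp [CV.htj]⟩
    · simp [CV.htj, hij] at h
  | apex i =>
    by_cases hij : i = j
    · subst hij
      exact ⟨_, (C.ne i).some_mem, C.ρ + 1, by omega, le_rfl,
        (pt_apex i _ (C.ne i).some_mem (C.ρ + 1) (by omega)).symm, by simp [CV.htj]⟩
    · simp [CV.htj, hij] at h

lemma htj_eq_ht_or {j : C.J} (u : CV C) : CV.htj j u = 0 ∨ CV.htj j u = CV.ht u := by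
  classical
  cases u with
  | base x => simp [CV.htj]
  | cone i y hy k hk => by_cases hij : i = j <;> simp [CV.htj, CV.ht, hij]
  | apex i => by_cases hij : i = j <;> simp [CV.htj, CV.ht, hij]

/-! ### Edges and heights -/

lemma E_htj (j : C.J) {u v : CV C} (h : CV.E u v) :
    CV.htj j u ≤ CV.htj j v + 1 ∧ CV.htj j v ≤ CV.htj j u + 1 := by
  cases h with
  | base x x' h => simp [CV.htj]
  | vert i y hy k =>
    by_cases hij : i = j
    · subst hij; rw [htj_pt, htj_pt]; omega
    · rw [htj_pt_ne hij, htj_pt_ne hij]; omega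
  | horiz i y y' hy hy' k h =>
    by_cases hij : i = j
    · subst hij; rw [htj_pt, htj_pt]; omega
    · rw [htj_pt_ne hij, htj_pt_ne hij]; omega

lemma E_ht {u v : CV C} (h : CV.E u v) : CV.ht u ≤ CV.ht v + 1 ∧ CV.ht v ≤ CV.ht u + 1 := by
  cases h with
  | base x x' h => simp [CV.ht]
  | vert i y hy k => rw [ht_pt, ht_pt]; omega
  | horiz i y y' hy hy' k h => rw [ht_pt, ht_pt]; omega

lemma E_diff {i j : C.J} (hij : i ≠ j) {u v : CV C} (h : CV.E u v) :
    ((CV.htj i u : ℤ) - CV.htj j u ≤ (CV.htj i v : ℤ) - CV.htj j v + 1) ∧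
    ((CV.htj i v : ℤ) - CV.htj j v ≤ (CV.htj i u : ℤ) - CV.htj j u + 1) := by
  cases h with
  | base x x' h => simp [CV.htj]
  | vert l y hy k =>
    by_cases hi : l = i
    · subst hi; rw [htj_pt_ne hij, htj_pt_ne hij, htj_pt, htj_pt]
      push_cast; omega
    · by_cases hj : l = j
      · subst hj; rw [htj_pt_ne hi, htj_pt_ne hi, htj_pt, htj_pt]
        push_cast; omega
      · rw [htj_pt_ne hi, htj_pt_ne hi, htj_pt_ne hj, htj_pt_ne hj]; omega
  | horiz l y y' hy hy' k h =>
    by_cases hi : l = i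
    · subst hi; rw [htj_pt_ne hij, htj_pt_ne hij, htj_pt, htj_pt]
      omega
    · by_cases hj : l = j
      · subst hj; rw [htj_pt_ne hi, htj_pt_ne hi, htj_pt, htj_pt]
        omega
      · rw [htj_pt_ne hi, htj_pt_ne hi, htj_pt_ne hj, htj_pt_ne hj]; omega

lemma E_ctr {u v : CV C} (h : CV.E u v) {k : ℕ} (hk : k ≤ C.ρ) (hu : CV.ht u ≤ k)
    (hv : CV.ht v ≤ k) : C.M.d (CV.ctr u) (CV.ctr v) ≤ 2 ^ k * C.S := by
  have h1 : 1 ≤ 2 ^ k := Nat.one_le_two_pow
  have h2 : C.S ≤ 2 ^ k * C.S := Nat.le_mul_of_pos_left _ (by omega)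
  cases h with
  | base x x' h => exact le_trans h h2
  | vert i y hy m =>
    rw [ht_pt] at hu hv
    rw [ctr_pt i y hy m (by omega), ctr_pt i y hy (m + 1) (by omega), C.M.self]
    omega
  | horiz i y y' hy hy' m h =>
    rw [ht_pt] at hu hv
    rw [ctr_pt i y hy m (by omega), ctr_pt i y' hy' m (by omega)]
    refine le_trans h (Nat.mul_le_mul_right _ (Nat.pow_le_pow_right (by omega) (by omega)))

lemma E_cone (j : C.J) {u v : CV C} (h : CV.E u v) (hu : ∀ x, u ≠ CV.base x)
    (hv : ∀ x, v ≠ CV.base x) : 0 < CV.htj j u ↔ 0 < CV.htj j v := by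
  cases h with
  | base x x' h => exact absurd rfl (hu x)
  | vert i y hy k =>
    have hk : 1 ≤ k := by
      by_contra hk
      have : k = 0 := by omega
      subst this
      exact hu y (pt_zero i y hy)
    by_cases hij : i = j
    · subst hij; rw [htj_pt, htj_pt]; omega
    · rw [htj_pt_ne hij, htj_pt_ne hij]
  | horiz i y y' hy hy' k h =>
    by_cases hij : i = j
    · subst hij; rw [htj_pt, htj_pt]
    · rw [htj_pt_ne hij, htj_pt_ne hij]

/-! ### Connectedness -/

lemma E.reachable {u v : CV C} (h : CV.E u v) : (CV.graph C).Reachable u v := by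
  by_cases huv : u = v
  · subst huv; exact SimpleGraph.Reachable.refl _
  · refine SimpleGraph.Adj.reachable ?_
    rw [CV.graph, SimpleGraph.fromRel_adj]
    exact ⟨huv, Or.inl h⟩

lemma reachable_base (x x' : X) : (CV.graph C).Reachable (CV.base x) (CV.base x') := by
  obtain ⟨n, hn⟩ : ∃ n, n = C.M.d x x' := ⟨_, rfl⟩
  induction n generalizing x with
  | zero =>
    rw [C.M.eq0 x x' hn.symm]
  | succ n ih =>
    obtain ⟨z, h1, h2⟩ := C.M.geod x x' 1 (by omega)
    have h3 := ih z (by omega)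
    have := C.hS
    exact (E.reachable (CV.E.base x z (by omega))).trans h3

lemma reachable_pt (j : C.J) (y : X) (hy : y ∈ C.Y j) (m : ℕ) :
    (CV.graph C).Reachable (CV.base y) (CV.pt j y hy m) := by
  induction m with
  | zero => rw [pt_zero]
  | succ m ih => exact ih.trans (E.reachable (CV.E.vert j y hy m))

lemma exists_pt (u : CV C) : (∃ x, u = CV.base x) ∨ ∃ j y hy m, 1 ≤ m ∧ m ≤ C.ρ + 1 ∧
    u = CV.pt j y hy m := by
  cases u with
  | base x => exact Or.inl ⟨x, rfl⟩
  | cone i y hy k hk =>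
    exact Or.inr ⟨i, y, hy, k, hk.1, by omega, (pt_cone i y hy k hk.1 hk.2).symm⟩
  | apex i =>
    exact Or.inr ⟨i, _, (C.ne i).some_mem, C.ρ + 1, by omega, le_rfl,
        (pt_apex i _ (C.ne i).some_mem (C.ρ + 1) (by omega)).symm⟩

lemma exists_reachable_base (u : CV C) : ∃ x, (CV.graph C).Reachable (CV.base x) u := by
  rcases exists_pt u with ⟨x, rfl⟩ | ⟨j, y, hy, m, _, _, rfl⟩
  · exact ⟨x, SimpleGraph.Reachable.refl _⟩
  · exact ⟨y, reachable_pt j y hy m⟩

lemma preconnected : (CV.graph C).Preconnected := by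
  intro u v
  obtain ⟨x, hx⟩ := exists_reachable_base u
  obtain ⟨y, hy⟩ := exists_reachable_base v
  exact hx.symm.trans ((reachable_base x y).trans hy)

/-- the unit distances of `MV` are the edges. -/
def Edg (MV : GMet (CV C)) : Prop := ∀ u v, MV.d u v ≤ 1 ↔ (u = v ∨ CV.E u v ∨ CV.E v u)

theorem exists_edg (C : ConeDat X) : ∃ MV : GMet (CV C), Edg MV := by
  obtain ⟨M, hM⟩ := exists_gmet (CV.graph C) preconnected
  refine ⟨M, fun u v => ?_⟩
  rw [hM, CV.graph, SimpleGraph.fromRel_adj]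
  by_cases h : u = v
  · simp [h]
  · simp [h]

/-! ### The properties of a metric with the given edges -/

section Edg

variable {MV : GMet (CV C)}

lemma Edg.le_one (hE : Edg MV) {u v : CV C} (h : CV.E u v) : MV.d u v ≤ 1 :=
  (hE u v).2 (Or.inr (Or.inl h))

lemma Edg.htj (hE : Edg MV) (j : C.J) (u v : CV C) :
    CV.htj j u ≤ CV.htj j v + MV.d u v := by
  have := lip MV (fun u => (CV.htj j u : ℤ)) (by
    intro u v h
    rcases (hE u v).1 h with h | h | h
    · subst h; omega
    · have := (E_htj j h).1; omega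
    · have := (E_htj j h).2; omega) u v
  omega

lemma Edg.ht (hE : Edg MV) (u v : CV C) : CV.ht u ≤ CV.ht v + MV.d u v := by
  have := lip MV (fun u => (CV.ht u : ℤ)) (by
    intro u v h
    rcases (hE u v).1 h with h | h | h
    · subst h; omega
    · have := (E_ht h).1; omega
    · have := (E_ht h).2; omega) u v
  omega

lemma Edg.vert (hE : Edg MV) (j : C.J) (y : X) (hy : y ∈ C.Y j) (k l : ℕ) (hkl : k ≤ l) :
    MV.d (CV.pt j y hy k) (CV.pt j y hy l) ≤ l - k := by
  induction l, hkl using Nat.le_induction with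
  | base => rw [MV.self]; omega
  | succ l hl ih =>
    have := hE.le_one (CV.E.vert j y hy l)
    have := MV.tri (CV.pt j y hy k) (CV.pt j y hy l) (CV.pt j y hy (l + 1))
    omega

lemma Edg.base_le (hE : Edg MV) (n : ℕ) : ∀ x x' : X, C.M.d x x' ≤ n * C.S →
    MV.d (CV.base x) (CV.base x') ≤ n := by
  induction n with
  | zero =>
    intro x x' h
    rw [C.M.eq0 x x' (by omega), MV.self]
  | succ n ih =>
    intro x x' h
    have hh : (n + 1) * C.S = n * C.S + C.S := by ring
    obtain ⟨z, h1, h2⟩ := C.M.geod x x' (min C.S (C.M.d x x')) (min_le_right _ _)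
    have h3 := ih z x' (by omega)
    have h4 := hE.le_one (CV.E.base x z (by omega) : CV.E (CV.base x : CV C) (CV.base z))
    have := MV.tri (CV.base x) (CV.base z) (CV.base x')
    omega

lemma Edg.base_upper (hE : Edg MV) (x x' : X) :
    C.S * MV.d (CV.base x) (CV.base x') ≤ C.M.d x x' + (C.S - 1) := by
  have hS := C.hS
  set d := C.M.d x x' with hd
  have h1 : d ≤ ((d + (C.S - 1)) / C.S) * C.S := by
    have := Nat.div_add_mod (d + (C.S - 1)) C.S
    have h2 := Nat.mod_lt (d + (C.S - 1)) (show C.S > 0 by omega)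
    rw [mul_comm] at this
    omega
  have h2 := hE.base_le _ x x' h1
  have h3 : C.S * ((d + (C.S - 1)) / C.S) ≤ d + (C.S - 1) := Nat.mul_div_le _ _
  exact le_trans (Nat.mul_le_mul_left _ h2) h3

lemma not_apex_of_ht {u : CV C} (h : CV.ht u ≤ C.ρ) (j : C.J) : u ≠ CV.apex j := by
  rintro rfl
  simp [CV.ht] at h

lemma ht_le_of_not_apex {u : CV C} (h : ∀ j, u ≠ CV.apex j) : CV.ht u ≤ C.ρ := by
  cases u with
  | base x => simp [CV.ht]
  | cone i y hy k hk => exact hk.2
  | apex i => exact absurd rfl (h i)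

lemma Edg.ctr_step (hE : Edg MV) {k : ℕ} (hk : k ≤ C.ρ) {a b : CV C} (ha : CV.ht a ≤ k)
    (hb : CV.ht b ≤ k) (h : MV.d a b ≤ 1) : C.M.d (CV.ctr a) (CV.ctr b) ≤ 2 ^ k * C.S := by
  rcases (hE a b).1 h with h | h | h
  · subst h; rw [C.M.self]; omega
  · exact E_ctr h hk ha hb
  · rw [C.M.symm]; exact E_ctr h hk hb ha

lemma Edg.ctr_step' (hE : Edg MV) (a b : CV C) (ha : ∀ j, a ≠ CV.apex j)
    (hb : ∀ j, b ≠ CV.apex j) (h : MV.d a b ≤ 1) :
    C.M.d (CV.ctr a) (CV.ctr b) ≤ 2 ^ C.ρ * C.S :=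
  hE.ctr_step le_rfl (ht_le_of_not_apex ha) (ht_le_of_not_apex hb) h

/-- centres along a path of bounded height -/
lemma Edg.ctr_path (hE : Edg MV) {k : ℕ} (hk : k ≤ C.ρ) (γ : ℕ → CV C) (N : ℕ)
    (hγ : ∀ i < N, MV.d (γ i) (γ (i + 1)) ≤ 1) (hh : ∀ i ≤ N, CV.ht (γ i) ≤ k) :
    C.M.d (CV.ctr (γ 0)) (CV.ctr (γ N)) ≤ N * (2 ^ k * C.S) := by
  induction N with
  | zero => rw [C.M.self]; omega
  | succ N ih =>
    have h1 := ih (fun i hi => hγ i (by omega)) (fun i hi => hh i (by omega))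
    have h2 := hE.ctr_step hk (hh N (by omega)) (hh (N + 1) le_rfl) (hγ N (by omega))
    have h3 := C.M.tri (CV.ctr (γ 0)) (CV.ctr (γ N)) (CV.ctr (γ (N + 1)))
    have : (N + 1) * (2 ^ k * C.S) = N * (2 ^ k * C.S) + 2 ^ k * C.S := by ring
    omega

lemma Edg.base_lower (hE : Edg MV) (x x' : X) (k : ℕ) (hk : k ≤ C.ρ)
    (h : MV.d (CV.base x) (CV.base x') ≤ k) : C.M.d x x' ≤ k * 2 ^ k * C.S := by
  obtain ⟨γ, hγ⟩ := MV.exists_isGeod (CV.base x) (CV.base x')
  have h1 := hE.ctr_path hk γ (MV.d (CV.base x) (CV.base x'))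
    (fun i hi => (hγ.step hi).le) (fun i hi => by
      have h2 := hE.ht (γ i) (CV.base x)
      have h3 := hγ.dist_left hi
      rw [MV.symm] at h2
      have h4 : CV.ht (CV.base x : CV C) = 0 := rfl
      omega)
  rw [hγ.1, hγ.2.1] at h1
  have h2 : C.M.d x x' ≤ MV.d (CV.base x) (CV.base x') * (2 ^ k * C.S) := h1
  refine le_trans h2 ?_
  rw [mul_assoc]
  exact Nat.mul_le_mul_right _ h

lemma htj_apex (j : C.J) : CV.htj j (CV.apex j : CV C) = C.ρ + 1 := by
  simp [CV.htj]

lemma htj_apex_ne {i j : C.J} (h : i ≠ j) : CV.htj j (CV.apex i : CV C) = 0 := by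
  simp [CV.htj, h]

lemma Edg.base_apex (hE : Edg MV) (x : X) (j : C.J) :
    C.ρ + 1 ≤ MV.d (CV.base x) (CV.apex j) := by
  have h := hE.htj j (CV.apex j) (CV.base x)
  rw [htj_apex, MV.symm] at h
  have : CV.htj j (CV.base x : CV C) = 0 := rfl
  omega

lemma Edg.Y_apex (hE : Edg MV) (y : X) (j : C.J) (hy : y ∈ C.Y j) :
    MV.d (CV.base y) (CV.apex j) ≤ C.ρ + 1 := by
  have h := hE.vert j y hy 0 (C.ρ + 1) (by omega)
  rw [pt_zero, pt_apex j y hy _ (by omega)] at h
  omega

lemma Edg.apex_apex (hE : Edg MV) (i j : C.J) (hij : i ≠ j) :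
    2 * C.ρ + 2 ≤ MV.d (CV.apex i) (CV.apex j) := by
  have := lip MV (fun u => (CV.htj i u : ℤ) - CV.htj j u) (by
    intro u v h
    rcases (hE u v).1 h with h | h | h
    · subst h; omega
    · have := (E_diff hij h).1; omega
    · have := (E_diff hij h).2; omega) (CV.apex i) (CV.apex j)
  simp only [htj_apex, htj_apex_ne hij, htj_apex_ne (Ne.symm hij)] at this
  push_cast at this
  omega

lemma Edg.apex_nbr (hE : Edg MV) (j : C.J) (u : CV C) (h : MV.d (CV.apex j) u = 1) :
    ∃ y hy, u = CV.pt j y hy C.ρ := by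
  have hne : CV.apex j ≠ u := by
    rintro rfl
    rw [MV.self] at h
    omega
  have key : ∀ a b : CV C, CV.E a b → a ≠ b →
      (a = CV.apex j → ∃ y hy, b = CV.pt j y hy C.ρ) ∧
      (b = CV.apex j → ∃ y hy, a = CV.pt j y hy C.ρ) := by
    clear hne
    intro a b hab hne
    cases hab with
    | base x x' h =>
      constructor
      · intro h; cases h
      · intro h; cases h
    | vert i y hy k =>
      constructor
      · intro h
        obtain ⟨h1, rfl⟩ := pt_eq_apex h
        exact absurd (h.trans (pt_apex i y hy (k + 1) (by omega)).symm) hne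
      · intro h
        obtain ⟨h1, rfl⟩ := pt_eq_apex h
        rcases Nat.lt_or_ge C.ρ k with h2 | h2
        · exact absurd ((pt_apex i y hy k h2).trans h.symm) hne
        · have : k = C.ρ := by omega
          subst this
          exact ⟨y, hy, rfl⟩
    | horiz i y y' hy hy' k h' =>
      constructor
      · intro h
        obtain ⟨h1, rfl⟩ := pt_eq_apex h
        exact absurd (h.trans (pt_apex i y' hy' k (by omega)).symm) hne
      · intro h
        obtain ⟨h1, rfl⟩ := pt_eq_apex h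
        exact absurd ((pt_apex i y hy k (by omega)).trans h.symm) hne
  rcases (hE _ _).1 h.le with h' | h' | h'
  · exact absurd h' hne
  · exact (key _ _ h' hne).1 rfl
  · exact (key _ _ h' hne.symm).2 rfl

lemma Edg.cone_path (hE : Edg MV) (j : C.J) (γ : ℕ → CV C) (N : ℕ)
    (hγ : ∀ i < N, MV.d (γ i) (γ (i + 1)) ≤ 1) (h0 : 0 < CV.htj j (γ 0))
    (hb : ∀ i ≤ N, ∀ x, γ i ≠ CV.base x) : 0 < CV.htj j (γ N) := by
  induction N with
  | zero => exact h0
  | succ N ih =>
    have h1 := ih (fun i hi => hγ i (by omega)) (fun i hi => hb i (by omega))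
    rcases (hE _ _).1 (hγ N (by omega)) with h | h | h
    · rwa [← h]
    · exact (E_cone j h (hb N (by omega)) (hb (N + 1) le_rfl)).1 h1
    · exact (E_cone j h (hb (N + 1) le_rfl) (hb N (by omega))).2 h1

lemma Edg.dist_apex (hE : Edg MV) (j : C.J) (u : CV C) (h : 0 < CV.htj j u) :
    MV.d u (CV.apex j) + CV.htj j u ≤ C.ρ + 1 := by
  obtain ⟨y, hy, m, h1, h2, rfl, h3⟩ := exists_pt_of_htj_pos h
  have := hE.vert j y hy m (C.ρ + 1) h2
  rw [pt_apex j y hy (C.ρ + 1) (by omega)] at this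
  omega

lemma Edg.apex_le (hE : Edg MV) (j : C.J) (u : CV C) (h : 0 < CV.htj j u) :
    MV.d u (CV.apex j) ≤ C.ρ := by
  have := hE.dist_apex j u h
  omega

lemma Edg.le_apex (hE : Edg MV) (j : C.J) (u : CV C) :
    C.ρ + 1 ≤ CV.htj j u + MV.d u (CV.apex j) := by
  have h := hE.htj j (CV.apex j) u
  rw [htj_apex, MV.symm] at h
  exact h

lemma exists_htj_pos {u : CV C} (h : ∀ x, u ≠ CV.base x) : ∃ j, 0 < CV.htj j u := by
  cases u with
  | base x => exact absurd rfl (h x)
  | cone i y hy k hk =>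
    refine ⟨i, ?_⟩
    simp only [CV.htj, if_true]; omega
  | apex i =>
    refine ⟨i, ?_⟩
    rw [htj_apex]; omega

lemma Edg.geod_base (hE : Edg MV) (u v : CV C) (huv : 2 * C.ρ + 1 ≤ MV.d u v) (γ : ℕ → CV C)
    (hγ : MV.IsGeod γ u v) : ∃ i ≤ 2 * C.ρ + 1, ∃ x, γ i = CV.base x := by
  by_contra hcon
  push Not at hcon
  obtain ⟨j, hj⟩ := exists_htj_pos (hcon 0 (by omega))
  have h1 := hE.cone_path j γ (2 * C.ρ + 1) (fun i hi => (hγ.step (by omega)).le) hj
    (fun i hi => hcon i hi)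
  have h2 := hE.apex_le j _ hj
  have h3 := hE.apex_le j _ h1
  have h4 := hγ.2.2 0 (2 * C.ρ + 1) (by omega) (by omega)
  have h5 := MV.tri (γ 0) (CV.apex j) (γ (2 * C.ρ + 1))
  rw [MV.symm (CV.apex j)] at h5
  omega

end Edg

end CO

/-- Module CO. -/
theorem co : COStatement := by
  intro X C
  obtain ⟨MV, hE⟩ := CO.exists_edg C
  exact ⟨MV, hE, hE.htj, hE.ht, fun j y hy k l hkl => hE.vert j y hy k l hkl, hE.base_upper,
    hE.base_lower, hE.ctr_step', hE.base_apex, hE.Y_apex, hE.apex_apex, hE.apex_nbr,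
    hE.cone_path, hE.apex_le, hE.le_apex, hE.geod_base⟩

end Pool.Agent.Lib.MP_7f190d_al
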