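import Pool.Agent.Lib.MP_7f190d_al.H43.W5

/-!
# MP_7f190d_al, module W: W2, W3
-/

set_option autoImplicit false

namespace Pool.Agent.Lib.MP_7f190d_al

/-- W3 (from I7). -/
theorem w3 (hI7 : I7Statement) : W3Statement := by
  intro Γ _ z X _ M D L A T hPS g x y R hgz hFO hx hy
  have iso := hPS.iso
  have hD := hPS.hD
  have hL := hPS.hL
  by_contra hcon
  obtain ⟨m, hm, hgm⟩ := hFO
  have hztriv : ∀ (c : ℤ) (v : X), z ^ c • v = v := by
    intro c v
    have h1 : z ∈ MulAction.stabilizer Γ v := hPS.ztriv v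
    exact (Subgroup.zpow_mem _ h1 c : _)
  have hell : ∃ m : ℕ, 1 ≤ m ∧ ∀ v : X, g ^ m • v = v := by
    obtain ⟨c, hc⟩ := Subgroup.mem_zpowers_iff.1 hgm
    exact ⟨m, hm, fun v => by rw [← hc]; exact hztriv c v⟩
  obtain ⟨p1, hp1, hd1⟩ := M.exists_pt x y (2 * R + 100 * D) (by omega)
  obtain ⟨p2, hp2, hd2⟩ := M.exists_pt x y (M.d x y - (2 * R + 100 * D)) (by omega)
  have e1 : M.d x p1 + M.d p1 y = M.d x y := hp1
  have e2 : M.d x p2 + M.d p2 y = M.d x y := hp2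
  have m1 := hI7 Γ X M D hPS.hyp iso g x y p1 R hell hx hy hp1 (by omega) (by omega)
  have m2 := hI7 Γ X M D hPS.hyp iso g x y p2 R hell hx hy hp2 (by omega) (by omega)
  have h3 := hPS.A2 g p1 p2 hgz ⟨m, hm, hgm⟩ (by omega) (by omega)
  have t1 := M.tri x p1 p2
  omega

/-- the conjugate of a commutator moves the middle points very little -/
lemma conj_comm_disp (hI1 : I1Statement) {G V : Type} [Group G] [MulAction G V] {M : GMet V}
    {δ : ℕ} (hM : M.Hyp δ) (iso : Iso G M) (g c : G) (x y : V) (R B : ℕ)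
    (hg1 : M.d x (g • x) ≤ R) (hg2 : M.d y (g • y) ≤ R)
    (hc : ∀ p, M.Btw x p y → 3 * R + 200 * δ ≤ M.d x p → 3 * R + 200 * δ ≤ M.d p y →
      M.d p (c • p) ≤ B) (p : V) (hp : M.Btw x p y) (h1 : 4 * R + 220 * δ ≤ M.d x p)
    (h2 : 4 * R + 220 * δ ≤ M.d p y) : M.d p ((g * c * g⁻¹) • p) ≤ B + 20 * δ := by
  have e1 : M.d x (g⁻¹ • x) ≤ R := by
    have := iso g (g⁻¹ • x) x
    rw [smul_inv_smul, M.symm x] at *
    have := M.symm (g⁻¹ • x) x
    omega
  have e2 : M.d y (g⁻¹ • y) ≤ R := by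
    have := iso g (g⁻¹ • y) y
    rw [smul_inv_smul, M.symm y] at *
    have := M.symm (g⁻¹ • y) y
    omega
  obtain ⟨q, hq, hq1, hq2, hq3⟩ := hI1 G V M δ hM iso g⁻¹ x y p R e1 e2 hp (by omega) (by omega)
  have e3 : M.d x p + M.d p y = M.d x y := hp
  have e4 : M.d x q + M.d q y = M.d x y := hq
  have h3 := hc q hq (by omega) (by omega)
  have h4 := disp_le iso c (g⁻¹ • p) q
  have h5 := iso g (g⁻¹ • p) (c • g⁻¹ • p)
  rw [smul_inv_smul] at h5
  rw [mul_smul, mul_smul]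
  omega

/-- W2 (from I1, I2, W1). -/
theorem w2 (hI1 : I1Statement) (hI2 : I2Statement) (hW1 : W1Statement) : W2Statement := by
  intro Γ _ z X _ M D L A T n hn hS g f x y R hg1 hg2 hf1 hf2 hxy
  have hPS := hS.toPreStage
  have iso := hPS.iso
  have hD := hPS.hD
  have hL := hPS.hL
  set c := g * f * g⁻¹ * f⁻¹ with hc
  show c ∈ Subgroup.zpowers z
  by_contra hcz
  have hcd : ∀ p, M.Btw x p y → 3 * R + 200 * D ≤ M.d x p → 3 * R + 200 * D ≤ M.d p y →
      M.d p (c • p) ≤ 200 * D := fun p hp h1 h2 =>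
    hI2 Γ X M D hPS.hyp iso g f x y p R hg1 hg2 hf1 hf2 hp h1 h2
  obtain ⟨p1, hp1, hd1⟩ := M.exists_pt x y (4 * R + 220 * D) (by omega)
  obtain ⟨p2, hp2, hd2⟩ := M.exists_pt x y (M.d x y - (4 * R + 220 * D)) (by omega)
  have e1 : M.d x p1 + M.d p1 y = M.d x y := hp1
  have e2 : M.d x p2 + M.d p2 y = M.d x y := hp2
  have t1 := M.tri x p1 p2
  have key : ∀ g', M.d x (g' • x) ≤ R → M.d y (g' • y) ≤ R → CM z g' c := by
    intro g' h1 h2
    have a1 := conj_comm_disp hI1 hPS.hyp iso g' c x y R (200 * D) h1 h2 hcd p1 hp1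
      (by omega) (by omega)
    have a2 := conj_comm_disp hI1 hPS.hyp iso g' c x y R (200 * D) h1 h2 hcd p2 hp2
      (by omega) (by omega)
    have b1 := hcd p1 hp1 (by omega) (by omega)
    have b2 := hcd p2 hp2 (by omega) (by omega)
    have := hPS.A1 c (g' * c * g'⁻¹) p1 p2 (by omega) (by omega) (by omega) (by omega)
      (by omega)
    exact hW1 Γ z X M D L A T n hn hS c g' hcz this
  obtain ⟨k, hk⟩ := hS.C1 c hcz
  obtain ⟨i, j, hij⟩ := (hk g).1 (key g hg1 hg2)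
  obtain ⟨i', j', hij'⟩ := (hk f).1 (key f hf1 hf2)
  have hcomm : Commute k z := hPS.central k
  have : Commute g f := by
    rw [hij, hij']
    have c1 : Commute (k ^ i) (k ^ i') := (Commute.refl k).zpow_zpow i i'
    have c2 : Commute (k ^ i) (z ^ j') := hcomm.zpow_zpow i j'
    have c3 : Commute (z ^ j) (k ^ i') := hcomm.symm.zpow_zpow j i'
    have c4 : Commute (z ^ j) (z ^ j') := (Commute.refl z).zpow_zpow j j'
    exact (c1.mul_right c2).mul_left (c3.mul_right c4)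
  apply hcz
  have hc1 : c = 1 := by
    rw [hc, this.eq]; group
  rw [hc1]
  exact Subgroup.one_mem _

end Pool.Agent.Lib.MP_7f190d_al
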