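import Pool.Agent.Lib.MP_7f190d_al.Interfaces
import Pool.Agent.Lib.MP_7f190d_al.Basic

/-!
# MP_7f190d_al, module W: W5, W6
-/

set_option autoImplicit false

namespace Pool.Agent.Lib.MP_7f190d_al

/-- the displacement of nearby points -/
lemma disp_le {G V : Type} [Group G] [MulAction G V] {M : GMet V} (iso : Iso G M) (g : G)
    (x y : V) : M.d x (g • x) ≤ M.d y (g • y) + 2 * M.d x y := by
  have t1 := M.tri x y (g • x)
  have t2 := M.tri y (g • y) (g • x)
  have e := iso g y x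
  have s := M.symm y x
  omega

/-- W5 (from I3). -/
theorem w5 (hI3 : I3Statement) : W5Statement := by
  intro Γ _ z X _ M D L A T hPS J _ h hJ
  have iso := hPS.iso
  have hD := hPS.hD
  have hL := hPS.hL
  constructor
  · intro j x hx y hy p hp
    simp only [Set.mem_ofPred_eq] at hx hy ⊢
    have e1 : M.d x p + M.d p y = M.d x y := hp
    have hp' : M.Btw (h j • x) (h j • p) (h j • y) := by
      unfold GMet.Btw; rw [iso, iso, iso]; exact hp
    have t1 := M.tri x y (h j • y)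
    have t2 := M.tri y x (h j • x)
    have s1 := M.symm y x
    have b3 := GMet.B3 X M D hPS.hyp x y (h j • x) (h j • y) p (h j • p) (300 * D) hp hp'
      (iso _ _ _).symm (iso _ _ _).symm (by omega) (by omega) (by omega) (by omega)
    obtain ⟨y0, hy0⟩ := hJ.ne j
    obtain ⟨x', h1, h2⟩ := hI3 Γ X M D hPS.hyp iso (h j) p y0 (300 * D) (by omega)
    exact ⟨x', h1, by omega⟩
  · rintro i j hij x x' ⟨y1, a1, b1⟩ ⟨y2, a2, b2⟩ ⟨y3, a3, b3⟩ ⟨y4, a4, b4⟩
    by_contra hcon
    have d1 := disp_le iso (h i) x y1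
    have d2 := disp_le iso (h j) x y2
    have d3 := disp_le iso (h i) x' y3
    have d4 := disp_le iso (h j) x' y4
    have hCM := hPS.A1 (h i) (h j) x x' (by omega) (by omega) (by omega) (by omega) (by omega)
    have hnz : h i ∉ Subgroup.zpowers z := by
      intro hz
      exact hJ.inf i ⟨1, le_rfl, by simpa using hz⟩
    exact hij (hJ.uniq i j (h i) hnz ⟨1, 0, by simp⟩ ((hJ.cent (h i) j).1 hCM))

/-- powers of an isometry and a path along the orbit -/
lemma orbit_path {G V : Type} [Group G] [MulAction G V] {M : GMet V} (iso : Iso G M) (g : G)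
    (x : V) (k : ℕ) : ∃ γ : ℕ → V, γ 0 = x ∧ γ (k * M.d x (g • x)) = g ^ k • x ∧
      (∀ i < k * M.d x (g • x), M.d (γ i) (γ (i + 1)) ≤ 1) ∧
      ∀ i ≤ k * M.d x (g • x), ∃ m : ℕ, M.d (γ i) (g ^ m • x) ≤ M.d x (g • x) := by
  obtain ⟨η, hη⟩ := M.exists_isGeod x (g • x)
  set r := M.d x (g • x) with hr
  rcases Nat.eq_zero_or_pos r with h0 | hpos
  · have hfix : g • x = x := (M.eq0 _ _ (by rw [← hr]; exact h0)).symm
    have hk : ∀ k : ℕ, g ^ k • x = x := by
      intro k
      induction k with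
      | zero => simp
      | succ k ih => rw [pow_succ, mul_smul, hfix, ih]
    refine ⟨fun _ => x, rfl, (hk k).symm, ?_, ?_⟩
    · intro i hi; rw [M.self]; omega
    · intro i hi; exact ⟨0, by simp [M.self]⟩
  · refine ⟨fun i => g ^ (i / r) • η (i % r), ?_, ?_, ?_, ?_⟩
    · simp [hη.1]
    · simp [Nat.mul_div_cancel _ hpos, hη.1]
    · intro i hi
      show M.d (g ^ (i / r) • η (i % r)) (g ^ ((i + 1) / r) • η ((i + 1) % r)) ≤ 1
      have hmod := Nat.mod_lt i hpos
      have hdm := Nat.div_add_mod i r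
      by_cases hlast : i % r + 1 = r
      · have e1 : i + 1 = r * (i / r + 1) := by rw [mul_add]; omega
        have e2 : (i + 1) / r = i / r + 1 := by rw [e1, Nat.mul_div_cancel_left _ hpos]
        have e3 : (i + 1) % r = 0 := by rw [e1, Nat.mul_mod_right]
        rw [e2, e3, pow_succ, mul_smul, iso, hη.1]
        have := hη.dist_right (i := i % r) (by omega)
        omega
      · have e2 : (i + 1) / r = i / r := by
          have e1 : i + 1 = (i % r + 1) + r * (i / r) := by omega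
          rw [e1, Nat.add_mul_div_left _ _ hpos, Nat.div_eq_of_lt (by omega), zero_add]
        have e3 : (i + 1) % r = i % r + 1 := by
          have e1 : i + 1 = (i % r + 1) + r * (i / r) := by omega
          rw [e1, Nat.add_mul_mod_self_left, Nat.mod_eq_of_lt (by omega)]
        rw [e2, e3, iso]
        have := hη.step (i := i % r) (by omega)
        omega
    · intro i hi
      refine ⟨i / r, ?_⟩
      show M.d (g ^ (i / r) • η (i % r)) (g ^ (i / r) • x) ≤ r
      rw [iso, M.symm]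
      have hmod := Nat.mod_lt i hpos
      have := hη.dist_left (i := i % r) (by omega)
      omega

/-- W6 (from W5 and the projections). -/
theorem w6 (hW5 : W5Statement) (hP : PStatement) : W6Statement := by
  intro Γ _ z X _ M D L A T hPS J _ h hJ j g x R K hg hgz hR hK
  have iso := hPS.iso
  have hD := hPS.hD
  obtain ⟨hqc, -⟩ := hW5 Γ z X M D L A T hPS J h hJ
  obtain ⟨a, b, hab⟩ := hg
  -- `g` is not of finite order
  have hzc : ∀ g, g * z = z * g := hPS.central
  have hcomm : Commute (h j) z := hzc (h j)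
  have ha : a ≠ 0 := by
    rintro rfl
    exact hgz (Subgroup.mem_zpowers_iff.2 ⟨b, by rw [hab]; simp⟩)
  have hgFO : ¬ FO z g := by
    rintro ⟨m, hm, hgm⟩
    obtain ⟨c, hc⟩ := Subgroup.mem_zpowers_iff.1 hgm
    have e1 : g ^ m = h j ^ (a * m) * z ^ (b * m) := by
      rw [hab, ((hcomm.zpow_zpow a b).mul_pow m), ← zpow_natCast, ← zpow_natCast, ← zpow_mul,
        ← zpow_mul]
    have e2 : h j ^ (a * m) = z ^ (c - b * m) := by
      rw [zpow_sub, hc, e1]; group
    refine hJ.inf j ⟨(a * m).natAbs, ?_, ?_⟩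
    · rw [Nat.succ_le_iff, Int.natAbs_pos]
      exact mul_ne_zero ha (by omega)
    · rcases Int.natAbs_eq (a * m) with h1 | h1
      · rw [← zpow_natCast, ← h1, e2]
        exact Subgroup.mem_zpowers_iff.2 ⟨_, rfl⟩
      · rw [← zpow_natCast, show (((a * m).natAbs : ℕ) : ℤ) = -(a * m) by omega, zpow_neg, e2]
        exact Subgroup.mem_zpowers_iff.2 ⟨-(c - b * m), by rw [zpow_neg]⟩
  have hA3 := hPS.A3 g hgFO
  have hT : 1 ≤ T := by
    have := hA3 x 1
    by_contra hT
    have : T = 0 := by omega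
    subst this
    omega
  -- `g` commutes with `h j`, so it preserves `Y`
  have hgc : g * h j = h j * g := by
    have h1 : Commute (h j) g := by
      rw [hab]
      exact ((Commute.refl (h j)).zpow_right a).mul_right (hcomm.zpow_right b)
    exact h1.eq.symm
  have hgcm : ∀ m : ℕ, g ^ m * h j = h j * g ^ m := fun m =>
    ((show Commute g (h j) from hgc).pow_left m).eq
  set Y : Set X := {x | M.d x (h j • x) ≤ 300 * D} with hY
  have hYg : ∀ (m : ℕ) (y : X), y ∈ Y ↔ g ^ m • y ∈ Y := by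
    intro m y
    simp only [hY, Set.mem_ofPred_eq]
    rw [← mul_smul, ← hgcm m, mul_smul, iso]
  -- a nearest point
  obtain ⟨y0, hy0⟩ := hJ.ne j
  have hy0' : y0 ∈ Y := by simp only [hY, Set.mem_ofPred_eq]; omega
  obtain ⟨a0, ha0⟩ : ∃ a0, M.Nst Y x a0 := by
    classical
    have hne : ∃ n, ∃ y ∈ Y, M.d x y = n := ⟨_, y0, hy0', rfl⟩
    obtain ⟨y, hy, hyn⟩ := Nat.find_spec hne
    exact ⟨y, hy, fun y' hy' => by
      rw [hyn]; exact Nat.find_min' hne ⟨y', hy', rfl⟩⟩
  have hnst : ∀ m : ℕ, M.Nst Y (g ^ m • x) (g ^ m • a0) := by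
    intro m
    refine ⟨(hYg m a0).1 ha0.1, fun y hy => ?_⟩
    have h1 : (g ^ m)⁻¹ • y ∈ Y := by
      rw [hYg m]
      simpa using hy
    have h2 := ha0.2 _ h1
    rw [iso]
    have h3 := iso (g ^ m) x ((g ^ m)⁻¹ • y)
    rw [smul_inv_smul] at h3
    omega
  set k := T * (700 * D + 1) with hk
  have hbig : 600 * D + 100 < M.d a0 (g ^ k • a0) := by
    have h1 := hA3 a0 k
    have h2 : T * (700 * D + 1) ≤ T * M.d a0 (g ^ k • a0) := h1
    have h3 := Nat.le_of_mul_le_mul_left h2 (by omega)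
    omega
  obtain ⟨-, -, hX2, -⟩ := hP X M D (5 * D) Y hPS.hyp (hqc j) (100 * (D + 5 * D + 1)) rfl
  obtain ⟨⟨s, hs1, hs2, hs3⟩, -⟩ := hX2 x (g ^ k • x) a0 (g ^ k • a0) ha0 (hnst k) (by omega)
  obtain ⟨γ, g0, g1, g2, g3⟩ := orbit_path iso g x k
  have hN : k * M.d x (g • x) ≤ 2 ^ K := le_trans (Nat.mul_le_mul_left _ hR) hK
  obtain ⟨i, hi, hsi⟩ := GMet.B4 X M D hPS.hyp K (k * M.d x (g • x)) γ s hN g2 (by
    rw [g0, g1]; exact hs1)
  obtain ⟨m, hm⟩ := g3 i hi
  refine ⟨a0, ha0.1, ?_⟩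
  -- `d x a0 ≤ d (g ^ m • x) a0`
  have h1 := (hnst m).2 a0 ha0.1
  rw [iso] at h1
  have t1 := M.tri (g ^ m • x) (γ i) a0
  have t2 := M.tri (γ i) s a0
  have s1 := M.symm (g ^ m • x) (γ i)
  have s2 := M.symm (γ i) s
  omega

end Pool.Agent.Lib.MP_7f190d_al
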